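import Mathlib
import Pool.Agent.Lib.MP_882ac6_an.Main

open Topology

namespace Pool.Agent.Results.MP_882ac6_an.NotIsomorphic

universe u

/-- The space `B(κ) = {x ∈ ℝ^κ : ∑ |x_i| ≤ 1}` for an index set `I` of cardinality `κ`. -/
def B (I : Type u) : Type u :=
  {x : I → ℝ // Summable (fun i => |x i|) ∧ ∑' i, |x i| ≤ 1}

/-- `B(κ)` carries the topology inherited from the product topology of `ℝ^κ`. -/
instance (I : Type u) : TopologicalSpace (B I) := instTopologicalSpaceSubtype

open Pool.Agent.Lib.MP_882ac6_an in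
/-- Summability with sum `≤ 1` means that all finite partial sums are `≤ 1`. -/
theorem summable_iff {I : Type u} (x : I → ℝ) :
    (Summable (fun i => |x i|) ∧ ∑' i, |x i| ≤ 1) ↔ ∀ s : Finset I, ∑ i ∈ s, |x i| ≤ 1 := by
  constructor
  · rintro ⟨h1, h2⟩ s
    exact (h1.sum_le_tsum s (fun i _ => abs_nonneg _)).trans h2
  · intro h
    have hs : Summable (fun i => |x i|) := summable_of_sum_le (fun i => abs_nonneg _) h
    exact ⟨hs, hs.tsum_le_of_sum_le h⟩

open Pool.Agent.Lib.MP_882ac6_an in
/-- Reindexing the ball. -/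
def ballHomeo {I P : Type u} (e : P ≃ I) : B I ≃ₜ Ball P where
  toFun x := ⟨fun p => x.1 (e p), fun s => by
    have h := (summable_iff x.1).1 x.2 (s.map e.toEmbedding)
    rwa [Finset.sum_map] at h⟩
  invFun y := ⟨fun i => y.1 (e.symm i), (summable_iff _).2 fun s => by
    have h := y.2 (s.map e.symm.toEmbedding)
    rwa [Finset.sum_map] at h⟩
  left_inv x := by
    apply Subtype.ext
    funext i
    simp
  right_inv y := by
    apply Subtype.ext
    funext i
    simp
  continuous_toFun := by
    apply Continuous.subtype_mk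
    exact continuous_pi fun p => (continuous_apply (e p)).comp continuous_subtype_val
  continuous_invFun := by
    apply Continuous.subtype_mk
    exact continuous_pi fun p => (continuous_apply (e.symm p)).comp continuous_subtype_val

instance (I : Type u) : CompactSpace (B I) := (ballHomeo (Equiv.refl I)).symm.compactSpace

/-- Composition with a continuous map on the right, as a continuous linear map. -/
def precomp {X Y : Type*} [TopologicalSpace X] [TopologicalSpace Y] (φ : C(X, Y)) :
    C(Y, ℝ) →L[ℝ] C(X, ℝ) where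
  toFun g := g.comp φ
  map_add' _ _ := rfl
  map_smul' _ _ := rfl
  cont := ContinuousMap.continuous_precomp φ

theorem exists_equiv (I : Type u) [Uncountable I] : Nonempty (I × ℕ ≃ I) := by
  rw [← Cardinal.eq, Cardinal.mk_prod]
  simp only [Cardinal.lift_uzero, Cardinal.mk_nat, Cardinal.lift_aleph0]
  exact Cardinal.mul_aleph0_eq (Cardinal.aleph0_le_mk I)

/-- `C(B(κ))` is not isomorphic to a complemented subspace of `C(A(κ)^ℕ)`. -/
theorem not_complemented (I : Type u) [TopologicalSpace I] [DiscreteTopology I] [Uncountable I]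
    (T : C(B I, ℝ) →L[ℝ] C(ℕ → OnePoint I, ℝ)) (S : C(ℕ → OnePoint I, ℝ) →L[ℝ] C(B I, ℝ))
    (h : ∀ f, S (T f) = f) : False := by
  classical
  obtain ⟨e⟩ := exists_equiv I
  let H := ballHomeo e
  refine Pool.Agent.Lib.MP_882ac6_an.main (T.comp (precomp (X := B I) ⟨H, H.continuous⟩))
    ((precomp ⟨H.symm, H.symm.continuous⟩).comp S) ?_
  intro f
  show (S (T (f.comp ⟨H, H.continuous⟩))).comp ⟨H.symm, H.symm.continuous⟩ = f
  rw [h]
  ext y
  simp

theorem aux (I : Type u) [TopologicalSpace I] [DiscreteTopology I] [Uncountable I]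
    (N : Type) [Nonempty N] (f : C(N → B I, ℝ) →L[ℝ] C(ℕ → OnePoint I, ℝ))
    (hf : Function.Bijective f) : False := by
  let Φ : C(N → B I, ℝ) ≃L[ℝ] C(ℕ → OnePoint I, ℝ) := ContinuousLinearEquiv.ofBijective f
    (LinearMap.ker_eq_bot.2 hf.1) (LinearMap.range_eq_top.2 hf.2)
  obtain ⟨i⟩ : Nonempty N := inferInstance
  let π : C(N → B I, B I) := ⟨fun x => x i, continuous_apply i⟩
  let ι : C(B I, N → B I) := ⟨fun x _ => x, continuous_pi fun _ => continuous_id⟩
  refine not_complemented I (f.comp (precomp π))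
    ((precomp ι).comp (Φ.symm : C(ℕ → OnePoint I, ℝ) →L[ℝ] C(N → B I, ℝ))) ?_
  intro g
  show (Φ.symm (Φ (g.comp π))).comp ι = g
  rw [Φ.symm_apply_apply]
  rfl

/-- For every uncountable `κ` (an uncountable discrete space `I`) and every `1 ≤ n ≤ ω`, the
Banach space `C(B(κ)^n)` is not isomorphic to `C(A(κ)^ℕ)`, i.e. there is no bounded linear
bijection between them (all spaces here are compact, and the topology that Mathlib puts on
`C(X, ℝ)` is then the one of the supremum norm). -/
theorem result (I : Type u) [TopologicalSpace I] [DiscreteTopology I] [Uncountable I] :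
    (∀ n : ℕ, 1 ≤ n → ¬ ∃ f : C(Fin n → B I, ℝ) →L[ℝ] C(ℕ → OnePoint I, ℝ),
      Function.Bijective f) ∧
    ¬ ∃ f : C(ℕ → B I, ℝ) →L[ℝ] C(ℕ → OnePoint I, ℝ), Function.Bijective f := by
  refine ⟨?_, ?_⟩
  · rintro n hn ⟨f, hf⟩
    have : Nonempty (Fin n) := ⟨⟨0, hn⟩⟩
    exact aux I (Fin n) f hf
  · rintro ⟨f, hf⟩
    exact aux I ℕ f hf

end Pool.Agent.Results.MP_882ac6_an.NotIsomorphic
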